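import Mathlib
import Pool.Agent.H650R2.RandMain

set_option autoImplicit false

/-!
# The strong polarized relation at the dominating number fails after adding random reals
-/

namespace Pool.Agent.Results.MP_95a70f_lc.RandomReals

open Cardinal Pool.Agent.Helper669.Forcing Pool.Agent.Helper669.Forcing2
open Pool.Agent.Helper669.Dom Pool.Agent.H650R2.Rand

/-- Let `L` be a set of size greater than the dominating number `𝔡`. Adding `L` random reals
(forcing with the measure algebra of the product measure on `2 ^ (L × ω)`) preserves all
cardinals and the value of the dominating number, and it is forced by every condition that the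
strong polarized relation `(𝔡, ω) → (𝔡, ω)` for two colours fails in the extension, whether or
not it holds in the ground model. -/
theorem result (L : Type) (hL : dNum < #L) :
    Nonempty (RandomForcing L) ∧ ∀ p : RandomForcing L,
      p ∈ CardinalsPreserved.{0, 0} (RandomForcing L) ∧
      p ∈ DominatingNumberIs (RandomForcing L) dNum ∧
      p ∈ fnot (Polarized (RandomForcing L) dNum.out ℕ) := by
  refine ⟨⟨⟨Set.univ, MeasurableSet.univ, ?_⟩⟩, fun p => ⟨?_, ?_, ?_⟩⟩
  · rw [MeasureTheory.measure_univ]
    exact one_ne_zero
  · exact cardinalsPreserved_of_ccc (fun ι f hι => ccc f hι) p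
  · exact dominatingNumberIs p
  · exact not_polarized (by rw [mk_out]; exact aleph0_lt_dNum) (by rw [mk_out]; exact hL.le) p

end Pool.Agent.Results.MP_95a70f_lc.RandomReals
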